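import Mathlib

/-!
# Second moment

`N = Fintype.card α`, `Z x = #{B ∈ L : x = a on B}`. `∑ x, Z x = |L| 3 ^ (N - t)` (the number of `x` with `x = a` on `B` is
`3 ^ (N - |B|)`, prove this first). `∑ x, Z x ^ 2 = ∑ B B', 3 ^ (N - |B ∪ B'|)`, and `|B ∪ B'| = 2 t - |B ∩ B'|`, so it is (over the reals)
`3 ^ N * (3⁻¹) ^ (2 t) * ∑ B B', 3 ^ |B ∩ B'|`. For fixed `B`: `3 ^ |B ∩ B'| = ∑ J ⊆ B ∩ B', 2 ^ |J|` (`Finset.sum_pow_mul_eq_add_pow` or
`Finset.prod_add`), so `∑ B', 3 ^ |B ∩ B'| = ∑ J ⊆ B, 2 ^ |J| |L_J| ≤ |L| ∑ J ⊆ B, (2/R) ^ |J| = |L| (1 + 2/R) ^ t`.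
Cauchy-Schwarz (`Finset.sum_mul_sq_le_sq_mul_sq` or `inner_mul_le_norm_mul_norm`), with the indicator of `Z > 0`:
`(∑ Z) ^ 2 ≤ #{Z > 0} ∑ Z ^ 2`, so `#{Z > 0} ≥ 3 ^ N / (1 + 2/R) ^ t ≥ 3 ^ N (1 - 2 t/R)`: by Bernoulli
`(1 + 2/R) ^ t (1 - 2 t/R) ≤ (1 + y) ^ t (1 - y) ^ t ≤ 1` for `y = 2/R ≤ 1` (if `2 t/R ≥ 1` the claim is trivial).
-/

set_option autoImplicit false

namespace Pool.Agent.AT36

open Finset

open Classical in
theorem momentS30_cnt {α : Type} [Fintype α] [DecidableEq α] (B : Finset α) (a : ZMod 3) :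
    (((univ : Finset (α → ZMod 3)).filter (fun x => ∀ i ∈ B, x i = a)).card : ℝ) =
      3 ^ (Fintype.card α) * (1 / 3) ^ B.card := by
  have h1 : ((univ : Finset (α → ZMod 3)).filter (fun x => ∀ i ∈ B, x i = a)) =
      Fintype.piFinset (fun i => if i ∈ B then ({a} : Finset (ZMod 3)) else univ) := by
    ext x
    simp only [mem_filter, mem_univ, true_and, Fintype.mem_piFinset]
    refine forall_congr' fun i => ?_
    by_cases hi : i ∈ B <;> simp [hi]
  rw [h1, Fintype.card_piFinset]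
  push_cast
  have h2 : ∀ i : α, (((if i ∈ B then ({a} : Finset (ZMod 3)) else univ).card : ℕ) : ℝ) =
      3 * (if i ∈ B then (1 / 3 : ℝ) else 1) := by
    intro i
    by_cases hi : i ∈ B
    · simp [hi]
    · simp [hi, ZMod.card]
  rw [Finset.prod_congr rfl fun i _ => h2 i, Finset.prod_mul_distrib, Finset.prod_ite_mem]
  simp

open Classical in
theorem moment {α : Type} [Fintype α] [DecidableEq α] {t R : ℕ} (hR : 2 ≤ R)
    (L : Finset (Finset α)) (hL : L.Nonempty) (hc : ∀ B ∈ L, B.card = t)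
    (hsp : ∀ J : Finset α, (L.filter (fun B => J ⊆ B)).card * R ^ J.card ≤ L.card) (a : ZMod 3) :
    (((univ : Finset (α → ZMod 3)).filter (fun x => ¬ ∃ B ∈ L, ∀ i ∈ B, x i = a)).card : ℝ) ≤
      3 ^ (Fintype.card α) * (2 * t / R) := by
  have hR0 : (0 : ℝ) < R := by exact_mod_cast (by omega : 0 < R)
  have hR2 : (2 : ℝ) ≤ R := by exact_mod_cast hR
  have hL0 : (0 : ℝ) < L.card := by exact_mod_cast hL.card_pos
  obtain ⟨N, hN⟩ : ∃ N, N = Fintype.card α := ⟨_, rfl⟩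
  rw [← hN]
  -- the indicator
  set I : Finset α → (α → ZMod 3) → ℝ := fun B x => if ∀ i ∈ B, x i = a then 1 else 0 with hI
  have sI : ∀ B : Finset α, ∑ x, I B x = 3 ^ N * (1 / 3) ^ B.card := by
    intro B
    have h := momentS30_cnt B a
    rw [← hN] at h
    rw [← h]
    simp only [hI]
    rw [Finset.sum_boole]
  have mI : ∀ (B B' : Finset α) (x : α → ZMod 3), I B x * I B' x = I (B ∪ B') x := by
    intro B B' x
    simp only [hI]
    by_cases h1 : ∀ i ∈ B, x i = a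
    · by_cases h2 : ∀ i ∈ B', x i = a
      · have h3 : ∀ i ∈ B ∪ B', x i = a := fun i hi => by
          rcases Finset.mem_union.mp hi with h | h
          · exact h1 i h
          · exact h2 i h
        rw [if_pos h1, if_pos h2, if_pos h3, one_mul]
      · have h3 : ¬ ∀ i ∈ B ∪ B', x i = a := fun h => h2 fun i hi => h i (Finset.mem_union_right _ hi)
        rw [if_neg h2, if_neg h3, mul_zero]
    · have h3 : ¬ ∀ i ∈ B ∪ B', x i = a := fun h => h1 fun i hi => h i (Finset.mem_union_left _ hi)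
      rw [if_neg h1, if_neg h3, zero_mul]
  set Z : (α → ZMod 3) → ℝ := fun x => ∑ B ∈ L, I B x with hZ
  have sZ : ∑ x, Z x = L.card * (3 ^ N * (1 / 3) ^ t) := by
    simp only [hZ]
    rw [Finset.sum_comm]
    rw [Finset.sum_congr rfl fun B hB => (by rw [sI B, hc B hB] :
      ∑ x, I B x = 3 ^ N * (1 / 3) ^ t)]
    rw [Finset.sum_const, nsmul_eq_mul]
  have sB : ∀ B ∈ L, ∑ B' ∈ L, (3 : ℝ) ^ (B ∩ B').card ≤ L.card * (1 + 2 / R) ^ t := by
    intro B hB
    have e1 : ∀ B' ∈ L, (3 : ℝ) ^ (B ∩ B').card =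
        ∑ J ∈ B.powerset, if J ⊆ B' then (2 : ℝ) ^ J.card else 0 := by
      intro B' _
      have h := Finset.sum_pow_mul_eq_add_pow (2 : ℝ) 1 (B ∩ B')
      rw [show (2 : ℝ) + 1 = 3 by norm_num] at h
      rw [← h, ← Finset.sum_filter]
      refine Finset.sum_congr ?_ fun J _ => by rw [one_pow, mul_one]
      ext J
      simp only [mem_powerset, mem_filter, Finset.subset_inter_iff]
    rw [Finset.sum_congr rfl e1, Finset.sum_comm]
    have e2 : ∀ J ∈ B.powerset, ∑ B' ∈ L, (if J ⊆ B' then (2 : ℝ) ^ J.card else 0) ≤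
        L.card * ((2 / R) ^ J.card * 1 ^ (B.card - J.card)) := by
      intro J _
      rw [← Finset.sum_filter, Finset.sum_const, nsmul_eq_mul, one_pow, mul_one, div_pow]
      have h := hsp J
      have h' : ((L.filter (fun B => J ⊆ B)).card : ℝ) * R ^ J.card ≤ L.card := by
        exact_mod_cast h
      rw [← mul_div_assoc, le_div_iff₀ (by positivity)]
      have h2 : (0 : ℝ) ≤ 2 ^ J.card := by positivity
      nlinarith
    refine (Finset.sum_le_sum e2).trans (le_of_eq ?_)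
    rw [← Finset.mul_sum, Finset.sum_pow_mul_eq_add_pow, hc B hB, add_comm (2 / (R : ℝ)) 1]
  have sZ2 : ∑ x, Z x ^ 2 ≤ L.card * (3 ^ N * ((1 / 3) ^ t * (1 / 3) ^ t) *
      (L.card * (1 + 2 / R) ^ t)) := by
    have e1 : ∑ x, Z x ^ 2 = ∑ B ∈ L, ∑ B' ∈ L, 3 ^ N * ((1 / 3) ^ t * (1 / 3) ^ t) *
        (3 : ℝ) ^ (B ∩ B').card := by
      have h1 : ∀ x, Z x ^ 2 = ∑ B ∈ L, ∑ B' ∈ L, I (B ∪ B') x := by
        intro x
        simp only [hZ]
        rw [sq, Finset.sum_mul_sum]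
        exact Finset.sum_congr rfl fun B _ => Finset.sum_congr rfl fun B' _ => mI B B' x
      rw [Finset.sum_congr rfl fun x _ => h1 x, Finset.sum_comm]
      refine Finset.sum_congr rfl fun B hB => ?_
      rw [Finset.sum_comm]
      refine Finset.sum_congr rfl fun B' hB' => ?_
      rw [sI]
      have h2 : (B ∪ B').card + (B ∩ B').card = t + t := by
        rw [Finset.card_union_add_card_inter, hc B hB, hc B' hB']
      have h3 : ((1 / 3 : ℝ)) ^ (B ∪ B').card = (1 / 3) ^ t * (1 / 3) ^ t * 3 ^ (B ∩ B').card := by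
        rw [← pow_add, ← h2, pow_add, mul_assoc, ← mul_pow]
        norm_num
      rw [h3]
      ring
    rw [e1]
    have h3 : ∀ B ∈ L, ∑ B' ∈ L, 3 ^ N * ((1 / 3) ^ t * (1 / 3) ^ t) * (3 : ℝ) ^ (B ∩ B').card ≤
        3 ^ N * ((1 / 3) ^ t * (1 / 3) ^ t) * (L.card * (1 + 2 / R) ^ t) := by
      intro B hB
      rw [← Finset.mul_sum]
      exact mul_le_mul_of_nonneg_left (sB B hB) (by positivity)
    refine (Finset.sum_le_sum h3).trans (le_of_eq ?_)
    rw [Finset.sum_const, nsmul_eq_mul]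
  -- Cauchy-Schwarz
  set S := (univ : Finset (α → ZMod 3)).filter (fun x => ∃ B ∈ L, ∀ i ∈ B, x i = a) with hS
  have zS : ∀ x, x ∉ S → Z x = 0 := by
    intro x hx
    simp only [hZ]
    refine Finset.sum_eq_zero fun B hB => ?_
    simp only [hI]
    rw [if_neg]
    intro h
    exact hx (by rw [hS, mem_filter]; exact ⟨mem_univ _, B, hB, h⟩)
  have cs : (∑ x, Z x) ^ 2 ≤ S.card * ∑ x, Z x ^ 2 := by
    have h1 : ∑ x, Z x = ∑ x ∈ S, Z x :=
      (Finset.sum_subset (Finset.subset_univ S) fun x _ hx => zS x hx).symm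
    rw [h1]
    refine sq_sum_le_card_mul_sum_sq.trans ?_
    apply mul_le_mul_of_nonneg_left _ (by positivity)
    exact Finset.sum_le_sum_of_subset_of_nonneg (Finset.subset_univ S) fun x _ _ => sq_nonneg _
  rw [sZ] at cs
  obtain ⟨w, hw⟩ : ∃ w : ℝ, w = (1 / 3) ^ t := ⟨_, rfl⟩
  have w0 : 0 < w := by rw [hw]; positivity
  obtain ⟨y, hy⟩ : ∃ y : ℝ, y = 2 / R := ⟨_, rfl⟩
  have y0 : 0 ≤ y := by rw [hy]; positivity
  have y1 : y ≤ 1 := by rw [hy, div_le_one hR0]; exact hR2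
  rw [← hw, ← hy] at sZ2
  rw [← hw] at cs
  have hM : (3 : ℝ) ^ N ≤ S.card * (1 + y) ^ t := by
    have h1 : ((L.card : ℝ) * (3 ^ N * w)) ^ 2 ≤
        S.card * (L.card * (3 ^ N * (w * w) * (L.card * (1 + y) ^ t))) :=
      cs.trans (mul_le_mul_of_nonneg_left sZ2 (by positivity))
    have h2 : (0 : ℝ) < (L.card : ℝ) ^ 2 * w ^ 2 * 3 ^ N := by positivity
    have h3 : ((L.card : ℝ) ^ 2 * w ^ 2 * 3 ^ N) * 3 ^ N ≤
        ((L.card : ℝ) ^ 2 * w ^ 2 * 3 ^ N) * (S.card * (1 + y) ^ t) := by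
      refine le_trans (le_of_eq ?_) (h1.trans (le_of_eq ?_)) <;> ring
    exact le_of_mul_le_mul_left h3 h2
  have hB : (1 + y) ^ t * (1 - t * y) ≤ 1 := by
    have h1 : 1 + (t : ℝ) * (-y) ≤ (1 + -y) ^ t := one_add_mul_le_pow (by linarith) t
    have h2 : (1 + y) ^ t * (1 - t * y) ≤ (1 + y) ^ t * (1 + -y) ^ t := by
      apply mul_le_mul_of_nonneg_left _ (by positivity)
      linarith
    rw [← mul_pow] at h2
    refine h2.trans (pow_le_one₀ ?_ ?_) <;> nlinarith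
  have hcomp : (((univ : Finset (α → ZMod 3)).filter
      (fun x => ¬ ∃ B ∈ L, ∀ i ∈ B, x i = a)).card : ℝ) = 3 ^ N - S.card := by
    have h1 := Finset.card_filter_add_card_filter_not
      (s := (univ : Finset (α → ZMod 3))) (fun x => ∃ B ∈ L, ∀ i ∈ B, x i = a)
    have h2 : (univ : Finset (α → ZMod 3)).card = 3 ^ N := by
      rw [Finset.card_univ, Fintype.card_fun, ZMod.card, hN]
    rw [h2, ← hS] at h1
    have h3 : (S.card : ℝ) + (((univ : Finset (α → ZMod 3)).filter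
      (fun x => ¬ ∃ B ∈ L, ∀ i ∈ B, x i = a)).card : ℝ) = 3 ^ N := by
      exact_mod_cast h1
    linarith
  rw [hcomp]
  have h5 : (3 : ℝ) ^ N * (1 - t * y) ≤ S.card := by
    by_cases hneg : 1 - t * y ≤ 0
    · have : (3 : ℝ) ^ N * (1 - t * y) ≤ 0 :=
        mul_nonpos_of_nonneg_of_nonpos (by positivity) hneg
      exact this.trans (by positivity)
    push Not at hneg
    calc (3 : ℝ) ^ N * (1 - t * y) ≤ S.card * (1 + y) ^ t * (1 - t * y) :=
          mul_le_mul_of_nonneg_right hM hneg.le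
      _ = S.card * ((1 + y) ^ t * (1 - t * y)) := by ring
      _ ≤ S.card * 1 := mul_le_mul_of_nonneg_left hB (by positivity)
      _ = S.card := mul_one _
  have h6 : (2 * t / R : ℝ) = t * y := by rw [hy]; ring
  rw [h6]
  linarith

end Pool.Agent.AT36
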