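import Pool.Agent.AT36.Kernel
import Pool.Agent.AT36.Moment

/-!
# One block (STUB)

`N = 25 s ^ 2`, `R = 12 s`. `(N + 1 - s) ^ s ≤ s! * choose N s ≤ s ^ s * choose N s` (`Nat.pow_sub_le_descFactorial`) and
`2 ^ s * R ^ s * s ^ s = (24 s ^ 2) ^ s < (N + 1 - s) ^ s`, so `choose N s > |H| R ^ s` and by the pigeonhole principle
(`Finset.exists_lt_card_fiber_of_mul_lt_card_of_maps_to` on `univ.powersetCard s`, as in AS36/Triple) more than `R ^ s` of the
`s`-subsets have the same sum of `v`; `kernel` gives `K`, `L`, `t ≤ s`; all members of `L` have the same sum (disjoint from `K`).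
`moment` for the letters `0, 1, 2`: in each case at most `3 ^ N * (2 t/(12 s)) ≤ 3 ^ N/6` of the `x` have no `B ∈ L` with `x = a` on `B`.
An `x` counted in the statement is one of these for some `a`.
-/

set_option autoImplicit false

namespace Pool.Agent.AT36

open Finset

open Classical in
theorem block {α H : Type} [Fintype α] [DecidableEq α] [AddCommGroup H] [Fintype H] (v : α → H)
    (s : ℕ) (hs : 1 ≤ s) (hH : Fintype.card H ≤ 2 ^ s) (hN : Fintype.card α = 25 * s ^ 2) :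
    (((univ : Finset (α → ZMod 3)).filter (fun x => ¬ ∃ D : Fin 3 → Finset α,
      (∀ a, (D a).Nonempty) ∧ (∀ a : Fin 3, ∀ i ∈ D a, x i = ((a : ℕ) : ZMod 3)) ∧
      ∀ a b, ∑ i ∈ D a, v i = ∑ i ∈ D b, v i)).card : ℝ) ≤ 3 ^ (25 * s ^ 2) / 2 := by
  have hss : s ≤ s ^ 2 := by nlinarith
  have h1 : (25 * s ^ 2 + 1 - s) ^ s ≤ s.factorial * (25 * s ^ 2).choose s := by
    rw [← Nat.descFactorial_eq_factorial_mul_choose]
    exact Nat.pow_sub_le_descFactorial _ _
  have h2 : (24 * s ^ 2) ^ s < (25 * s ^ 2 + 1 - s) ^ s := by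
    apply Nat.pow_lt_pow_left _ (by omega)
    omega
  have h3 : s.factorial ≤ s ^ s := Nat.factorial_le_pow s
  have h4 : s ^ s * (Fintype.card H * (12 * s) ^ s) < s ^ s * (25 * s ^ 2).choose s := by
    calc s ^ s * (Fintype.card H * (12 * s) ^ s) ≤ s ^ s * (2 ^ s * (12 * s) ^ s) :=
          Nat.mul_le_mul_left _ (Nat.mul_le_mul_right _ hH)
      _ = (24 * s ^ 2) ^ s := by
          rw [← mul_pow, ← mul_pow]
          congr 1
          ring
      _ < _ := h2
      _ ≤ _ := h1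
      _ ≤ _ := Nat.mul_le_mul_right _ h3
  have h5 : Fintype.card H * (12 * s) ^ s < (25 * s ^ 2).choose s :=
    lt_of_mul_lt_mul_left h4 (Nat.zero_le _)
  have h6 : (univ : Finset H).card * (12 * s) ^ s <
      (powersetCard s (univ : Finset α)).card := by
    rw [card_powersetCard, card_univ, card_univ, hN]
    exact h5
  obtain ⟨y, -, hy⟩ := exists_lt_card_fiber_of_mul_lt_card_of_maps_to
    (f := fun D : Finset α => ∑ i ∈ D, v i) (fun D _ => mem_univ _) h6
  obtain ⟨K, L, t, ht1, hts, hLne, hL, hsp⟩ := kernel s (12 * s)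
    ((powersetCard s (univ : Finset α)).filter fun D => ∑ i ∈ D, v i = y)
    (fun D hD => (mem_powersetCard.1 (mem_filter.1 hD).1).2) hy
  have hsum : ∀ B ∈ L, ∑ i ∈ B, v i = y - ∑ i ∈ K, v i := by
    intro B hB
    obtain ⟨-, hd, hF⟩ := hL B hB
    have := (mem_filter.1 hF).2
    rw [sum_union hd] at this
    rw [← this]
    abel
  have hbad : ∀ a : Fin 3, (((univ : Finset (α → ZMod 3)).filter (fun x =>
      ¬ ∃ B ∈ L, ∀ i ∈ B, x i = ((a : ℕ) : ZMod 3))).card : ℝ) ≤ 3 ^ (25 * s ^ 2) / 6 := by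
    intro a
    have h7 := moment (t := t) (R := 12 * s) (by omega) L hLne (fun B hB => (hL B hB).1) hsp
      ((a : ℕ) : ZMod 3)
    rw [hN] at h7
    refine h7.trans ?_
    have hs0 : (0 : ℝ) < s := by exact_mod_cast hs
    have hts' : (t : ℝ) ≤ s := by exact_mod_cast hts
    have h8 : 2 * (t : ℝ) / ((12 * s : ℕ) : ℝ) ≤ 1 / 6 := by
      push_cast
      rw [div_le_div_iff₀ (by positivity) (by norm_num)]
      linarith
    calc (3 : ℝ) ^ (25 * s ^ 2) * (2 * t / ((12 * s : ℕ) : ℝ)) ≤ 3 ^ (25 * s ^ 2) * (1 / 6) :=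
          mul_le_mul_of_nonneg_left h8 (by positivity)
      _ = _ := by ring
  have hsub : (univ : Finset (α → ZMod 3)).filter (fun x => ¬ ∃ D : Fin 3 → Finset α,
      (∀ a, (D a).Nonempty) ∧ (∀ a : Fin 3, ∀ i ∈ D a, x i = ((a : ℕ) : ZMod 3)) ∧
      ∀ a b, ∑ i ∈ D a, v i = ∑ i ∈ D b, v i) ⊆
      (univ : Finset (Fin 3)).biUnion fun a => (univ : Finset (α → ZMod 3)).filter (fun x =>
        ¬ ∃ B ∈ L, ∀ i ∈ B, x i = ((a : ℕ) : ZMod 3)) := by
    intro x hx
    by_contra hno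
    have h9 : ∀ a : Fin 3, ∃ B ∈ L, ∀ i ∈ B, x i = ((a : ℕ) : ZMod 3) := by
      intro a
      by_contra hcon
      exact hno (mem_biUnion.2 ⟨a, mem_univ _, mem_filter.2 ⟨mem_univ _, hcon⟩⟩)
    choose D hD hDx using h9
    apply (mem_filter.1 hx).2
    refine ⟨D, fun a => ?_, hDx, fun a b => ?_⟩
    · rw [← card_pos, (hL (D a) (hD a)).1]
      exact ht1
    · rw [hsum _ (hD a), hsum _ (hD b)]
  have hc := (card_le_card hsub).trans card_biUnion_le
  have hc' : (((univ : Finset (α → ZMod 3)).filter (fun x => ¬ ∃ D : Fin 3 → Finset α,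
      (∀ a, (D a).Nonempty) ∧ (∀ a : Fin 3, ∀ i ∈ D a, x i = ((a : ℕ) : ZMod 3)) ∧
      ∀ a b, ∑ i ∈ D a, v i = ∑ i ∈ D b, v i)).card : ℝ) ≤
      ∑ a : Fin 3, (((univ : Finset (α → ZMod 3)).filter (fun x =>
        ¬ ∃ B ∈ L, ∀ i ∈ B, x i = ((a : ℕ) : ZMod 3))).card : ℝ) := by
    exact_mod_cast hc
  refine hc'.trans ((sum_le_sum fun a _ => hbad a).trans ?_)
  rw [sum_const, card_univ, Fintype.card_fin, nsmul_eq_mul]
  push_cast
  apply le_of_eq
  ring

end Pool.Agent.AT36
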