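import Pool.Agent.AT36.Kernel
import Pool.Agent.AT36.Moment

/-!
# One block (helper98, shadow of AT36/Block; proof as in its header)
-/

set_option autoImplicit false

namespace Pool.Agent.AT36.S98

open Finset

theorem numb98 (s : ℕ) (hs : 1 ≤ s) : 2 ^ s * (12 * s) ^ s < (25 * s ^ 2).choose s := by
  have h1 := Nat.pow_sub_le_descFactorial (25 * s ^ 2) s
  rw [Nat.descFactorial_eq_factorial_mul_choose] at h1
  have h2 : s.factorial ≤ s ^ s := Nat.factorial_le_pow s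
  have h3 : (24 * s ^ 2) ^ s < (25 * s ^ 2 + 1 - s) ^ s := by
    refine Nat.pow_lt_pow_left ?_ (by omega)
    have h4 : s ≤ s ^ 2 := by nlinarith
    omega
  have h4 : 2 ^ s * (12 * s) ^ s * s ^ s = (24 * s ^ 2) ^ s := by
    rw [← mul_pow, ← mul_pow]
    congr 1
    ring
  have h5 : 2 ^ s * (12 * s) ^ s * s ^ s < (25 * s ^ 2).choose s * s ^ s := by
    rw [h4]
    refine h3.trans_le (h1.trans ?_)
    rw [mul_comm]
    exact Nat.mul_le_mul_left _ h2
  exact lt_of_mul_lt_mul_right h5 (Nat.zero_le _)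

open Classical in
theorem block {α H : Type} [Fintype α] [DecidableEq α] [AddCommGroup H] [Fintype H] (v : α → H)
    (s : ℕ) (hs : 1 ≤ s) (hH : Fintype.card H ≤ 2 ^ s) (hN : Fintype.card α = 25 * s ^ 2) :
    (((univ : Finset (α → ZMod 3)).filter (fun x => ¬ ∃ D : Fin 3 → Finset α,
      (∀ a, (D a).Nonempty) ∧ (∀ a : Fin 3, ∀ i ∈ D a, x i = ((a : ℕ) : ZMod 3)) ∧
      ∀ a b, ∑ i ∈ D a, v i = ∑ i ∈ D b, v i)).card : ℝ) ≤ 3 ^ (25 * s ^ 2) / 2 := by
  have hp : (univ : Finset H).card * (12 * s) ^ s <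
      ((univ : Finset α).powersetCard s).card := by
    rw [Finset.card_powersetCard, Finset.card_univ, Finset.card_univ, hN]
    exact (Nat.mul_le_mul_right _ hH).trans_lt (numb98 s hs)
  obtain ⟨h0, -, hh⟩ := Finset.exists_lt_card_fiber_of_mul_lt_card_of_maps_to
    (f := fun D : Finset α => ∑ i ∈ D, v i) (fun D _ => Finset.mem_univ _) hp
  set F : Finset (Finset α) := ((univ : Finset α).powersetCard s).filter
    (fun D => ∑ i ∈ D, v i = h0) with hF
  obtain ⟨K, L, t, ht1, hts, hLne, hLK, hsp⟩ := kernel s (12 * s) F (by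
    intro D hD
    rw [hF, Finset.mem_filter, Finset.mem_powersetCard] at hD
    exact hD.1.2) hh
  have hsum : ∀ B ∈ L, ∑ i ∈ B, v i = h0 - ∑ i ∈ K, v i := by
    intro B hB
    obtain ⟨_, h1, h2⟩ := hLK B hB
    rw [hF, Finset.mem_filter] at h2
    have h3 := h2.2
    rw [Finset.sum_union h1] at h3
    rw [← h3]
    abel
  have hm : ∀ a : ZMod 3, (((univ : Finset (α → ZMod 3)).filter
      (fun x => ¬ ∃ B ∈ L, ∀ i ∈ B, x i = a)).card : ℝ) ≤ 3 ^ (25 * s ^ 2) / 6 := by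
    intro a
    have h1 := moment (t := t) (R := 12 * s) (by omega) L hLne (fun B hB => (hLK B hB).1) hsp a
    rw [hN] at h1
    refine h1.trans ?_
    have hs' : (1 : ℝ) ≤ s := by exact_mod_cast hs
    have ht' : (t : ℝ) ≤ s := by exact_mod_cast hts
    have h2 : (2 * (t : ℝ) / ((12 * s : ℕ) : ℝ)) ≤ 1 / 6 := by
      push_cast
      rw [div_le_div_iff₀ (by positivity) (by norm_num)]
      linarith
    calc (3 : ℝ) ^ (25 * s ^ 2) * (2 * (t : ℝ) / ((12 * s : ℕ) : ℝ))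
        ≤ 3 ^ (25 * s ^ 2) * (1 / 6) := mul_le_mul_of_nonneg_left h2 (by positivity)
      _ = 3 ^ (25 * s ^ 2) / 6 := by ring
  set bad : ZMod 3 → Finset (α → ZMod 3) := fun a => (univ : Finset (α → ZMod 3)).filter
      (fun x => ¬ ∃ B ∈ L, ∀ i ∈ B, x i = a) with hbad
  have hsub : (univ : Finset (α → ZMod 3)).filter (fun x => ¬ ∃ D : Fin 3 → Finset α,
      (∀ a, (D a).Nonempty) ∧ (∀ a : Fin 3, ∀ i ∈ D a, x i = ((a : ℕ) : ZMod 3)) ∧
      ∀ a b, ∑ i ∈ D a, v i = ∑ i ∈ D b, v i) ⊆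
      (univ : Finset (Fin 3)).biUnion (fun a => bad ((a : ℕ) : ZMod 3)) := by
    intro x hx
    rw [Finset.mem_filter] at hx
    by_contra hcon
    refine hx.2 ?_
    have h1 : ∀ a : Fin 3, ∃ B ∈ L, ∀ i ∈ B, x i = ((a : ℕ) : ZMod 3) := by
      intro a
      by_contra h2
      refine hcon ?_
      rw [Finset.mem_biUnion]
      exact ⟨a, Finset.mem_univ _, by
        rw [hbad, Finset.mem_filter]
        exact ⟨Finset.mem_univ _, h2⟩⟩
    choose D hD hDx using h1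
    refine ⟨D, fun a => ?_, hDx, fun a b => ?_⟩
    · rw [← Finset.card_pos, (hLK _ (hD a)).1]
      omega
    · rw [hsum _ (hD a), hsum _ (hD b)]
  have hcard : (((univ : Finset (α → ZMod 3)).filter (fun x => ¬ ∃ D : Fin 3 → Finset α,
      (∀ a, (D a).Nonempty) ∧ (∀ a : Fin 3, ∀ i ∈ D a, x i = ((a : ℕ) : ZMod 3)) ∧
      ∀ a b, ∑ i ∈ D a, v i = ∑ i ∈ D b, v i)).card : ℝ) ≤
      ∑ a : Fin 3, ((bad ((a : ℕ) : ZMod 3)).card : ℝ) := by
    have h1 := (Finset.card_le_card hsub).trans Finset.card_biUnion_le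
    exact_mod_cast h1
  refine hcard.trans ?_
  have h2 : ∑ a : Fin 3, ((bad ((a : ℕ) : ZMod 3)).card : ℝ) ≤
      ∑ _a : Fin 3, (3 : ℝ) ^ (25 * s ^ 2) / 6 :=
    Finset.sum_le_sum fun a _ => hm _
  refine h2.trans (le_of_eq ?_)
  rw [Finset.sum_const, Finset.card_univ, Fintype.card_fin, nsmul_eq_mul]
  push_cast
  ring

end Pool.Agent.AT36.S98
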