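import Mathlib

/-!
# A maximal kernel

`F_K = F.filter (K ⊆ ·)`. Choose `K` (among the subsets of members of `F`, for instance in `F.biUnion powerset`) with
`F_K.card * R ^ K.card` maximal; for `K = ∅` the value is `F.card`, so it is at least `F.card > R ^ s`, in particular
`R ^ K.card ≠ 0`. Let `L` be the set of the `D \ K`, `D ∈ F_K`, `t = s - K.card`. If `K.card = s` then `F_K ⊆ {K}` and the value is
at most `R ^ s`, a contradiction; so `t ≥ 1`. For `J` contained in some member of `L` (otherwise the left side is `0`) `J` is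
disjoint from `K`, `B ↦ K ∪ B` maps `L.filter (J ⊆ ·)` injectively into `F_(K ∪ J)`, and the maximality gives
`(L_J).card * R ^ (K.card + J.card) ≤ L.card * R ^ K.card`.
-/

set_option autoImplicit false

namespace Pool.Agent.AT36

open Finset

theorem kernel {α : Type} [DecidableEq α] (s R : ℕ) (F : Finset (Finset α))
    (hF : ∀ D ∈ F, D.card = s) (h : R ^ s < F.card) :
    ∃ (K : Finset α) (L : Finset (Finset α)) (t : ℕ), 1 ≤ t ∧ t ≤ s ∧ L.Nonempty ∧
      (∀ B ∈ L, B.card = t ∧ Disjoint K B ∧ K ∪ B ∈ F) ∧
      ∀ J : Finset α, (L.filter (fun B => J ⊆ B)).card * R ^ J.card ≤ L.card := by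
  classical
  set C : Finset (Finset α) := F.biUnion Finset.powerset with hC
  have hFne : F.Nonempty := by
    rw [← Finset.card_pos]
    exact lt_of_le_of_lt (Nat.zero_le _) h
  obtain ⟨D0, hD0⟩ := hFne
  have hCe : (∅ : Finset α) ∈ C := by
    rw [hC, Finset.mem_biUnion]
    exact ⟨D0, hD0, Finset.empty_mem_powerset D0⟩
  obtain ⟨K, hKC, hKmax⟩ := Finset.exists_max_image C
    (fun K => (F.filter (fun D => K ⊆ D)).card * R ^ K.card) ⟨∅, hCe⟩
  have hv : F.card ≤ (F.filter (fun D => K ⊆ D)).card * R ^ K.card := by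
    have h1 := hKmax ∅ hCe
    simp only [Finset.empty_subset, Finset.filter_true, Finset.card_empty, pow_zero,
      mul_one] at h1
    exact h1
  have hRs : R ^ s < (F.filter (fun D => K ⊆ D)).card * R ^ K.card := lt_of_lt_of_le h hv
  have hpos : 0 < (F.filter (fun D => K ⊆ D)).card * R ^ K.card :=
    lt_of_le_of_lt (Nat.zero_le _) hRs
  have hR0 : 0 < R ^ K.card := Nat.pos_of_mul_pos_left hpos
  have hF0 : 0 < (F.filter (fun D => K ⊆ D)).card := Nat.pos_of_mul_pos_right hpos
  obtain ⟨D1, hD1⟩ := Finset.card_pos.mp hF0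
  rw [Finset.mem_filter] at hD1
  have hKs : K.card ≤ s := by
    rw [← hF D1 hD1.1]
    exact Finset.card_le_card hD1.2
  have hKlt : K.card < s := by
    rcases Nat.lt_or_ge K.card s with h1 | h1
    · exact h1
    · exfalso
      have hKe : K.card = s := le_antisymm hKs h1
      have hsub : F.filter (fun D => K ⊆ D) ⊆ {K} := by
        intro D hD
        rw [Finset.mem_filter] at hD
        rw [Finset.mem_singleton]
        exact (Finset.eq_of_subset_of_card_le hD.2 (by rw [hF D hD.1, hKe])).symm
      have hc1 : (F.filter (fun D => K ⊆ D)).card ≤ 1 := by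
        have := Finset.card_le_card hsub
        rwa [Finset.card_singleton] at this
      rw [hKe] at hRs
      have : (F.filter (fun D => K ⊆ D)).card * R ^ s ≤ 1 * R ^ s :=
        Nat.mul_le_mul_right _ hc1
      omega
  have hinj : Set.InjOn (fun D : Finset α => D \ K)
      (F.filter (fun D => K ⊆ D) : Finset (Finset α)) := by
    intro D hD D' hD' hDD
    rw [Finset.mem_coe, Finset.mem_filter] at hD hD'
    have hDD' : D \ K = D' \ K := hDD
    rw [← Finset.sdiff_union_of_subset hD.2, ← Finset.sdiff_union_of_subset hD'.2, hDD']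
  have hLcard : ((F.filter (fun D => K ⊆ D)).image (fun D => D \ K)).card
      = (F.filter (fun D => K ⊆ D)).card := Finset.card_image_of_injOn hinj
  have hL : ∀ B ∈ (F.filter (fun D => K ⊆ D)).image (fun D => D \ K),
      B.card = s - K.card ∧ Disjoint K B ∧ K ∪ B ∈ F := by
    intro B hB
    rw [Finset.mem_image] at hB
    obtain ⟨D, hD, rfl⟩ := hB
    rw [Finset.mem_filter] at hD
    refine ⟨?_, Finset.disjoint_sdiff, ?_⟩
    · rw [Finset.card_sdiff_of_subset hD.2, hF D hD.1]
    · rw [Finset.union_sdiff_of_subset hD.2]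
      exact hD.1
  refine ⟨K, (F.filter (fun D => K ⊆ D)).image (fun D => D \ K), s - K.card, by omega,
    by omega, ?_, hL, ?_⟩
  · rw [← Finset.card_pos, hLcard]
    exact hF0
  · intro J
    rw [hLcard]
    rcases Finset.eq_empty_or_nonempty
      (((F.filter (fun D => K ⊆ D)).image (fun D => D \ K)).filter (fun B => J ⊆ B)) with
      he | ⟨B0, hB0⟩
    · rw [he, Finset.card_empty, zero_mul]
      exact Nat.zero_le _
    · rw [Finset.mem_filter] at hB0
      obtain ⟨hB0c, hB0d, hB0F⟩ := hL B0 hB0.1
      have hJK : Disjoint K J := Finset.disjoint_of_subset_right hB0.2 hB0d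
      have hKJC : K ∪ J ∈ C := by
        rw [hC, Finset.mem_biUnion]
        refine ⟨K ∪ B0, hB0F, ?_⟩
        rw [Finset.mem_powerset]
        exact Finset.union_subset_union_right hB0.2
      have hmx : (F.filter (fun D => K ∪ J ⊆ D)).card * R ^ (K ∪ J).card
          ≤ (F.filter (fun D => K ⊆ D)).card * R ^ K.card := hKmax (K ∪ J) hKJC
      rw [Finset.card_union_of_disjoint hJK, pow_add] at hmx
      have hle : (((F.filter (fun D => K ⊆ D)).image (fun D => D \ K)).filter
          (fun B => J ⊆ B)).card ≤ (F.filter (fun D => K ∪ J ⊆ D)).card := by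
        refine Finset.card_le_card_of_injOn (fun B => K ∪ B) ?_ ?_
        · intro B hB
          rw [Finset.mem_coe, Finset.mem_filter] at hB
          rw [Finset.mem_coe, Finset.mem_filter]
          exact ⟨(hL B hB.1).2.2, Finset.union_subset_union_right hB.2⟩
        · intro B hB B' hB' hBB
          rw [Finset.mem_coe, Finset.mem_filter] at hB hB'
          have hBB' : K ∪ B = K ∪ B' := hBB
          have h1 : (K ∪ B) \ K = B := by
            rw [Finset.union_sdiff_left]
            exact Finset.sdiff_eq_self_of_disjoint (hL B hB.1).2.1.symm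
          have h2 : (K ∪ B') \ K = B' := by
            rw [Finset.union_sdiff_left]
            exact Finset.sdiff_eq_self_of_disjoint (hL B' hB'.1).2.1.symm
          rw [← h1, ← h2, hBB']
      refine Nat.le_of_mul_le_mul_right ?_ hR0
      calc (((F.filter (fun D => K ⊆ D)).image (fun D => D \ K)).filter
              (fun B => J ⊆ B)).card * R ^ J.card * R ^ K.card
          ≤ (F.filter (fun D => K ∪ J ⊆ D)).card * R ^ J.card * R ^ K.card :=
            Nat.mul_le_mul_right _ (Nat.mul_le_mul_right _ hle)
        _ = (F.filter (fun D => K ∪ J ⊆ D)).card * (R ^ K.card * R ^ J.card) := by ring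
        _ ≤ (F.filter (fun D => K ⊆ D)).card * R ^ K.card := hmx

end Pool.Agent.AT36
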