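import Pool.Agent.AT36.Block
import Pool.Agent.AS36.Prog
import Pool.Agent.BW36.Core

/-!
# Free unions of level sets of an additive statistic: the product over the blocks
-/

set_option autoImplicit false

namespace Pool.Agent.AT36

open Finset Pool.Agent.BW36

theorem block_le {α H : Type} [Fintype α] [DecidableEq α] [AddCommGroup H] [Fintype H] (v : α → H)
    (s : ℕ) (hs : 1 ≤ s) (hH : Fintype.card H ≤ 2 ^ s) (hN : Fintype.card α = 25 * s ^ 2)
    (B : Finset (α → ZMod 3))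
    (hB : ∀ x ∈ B, ¬ ∃ D : Fin 3 → Finset α,
      (∀ a, (D a).Nonempty) ∧ (∀ a : Fin 3, ∀ i ∈ D a, x i = ((a : ℕ) : ZMod 3)) ∧
      ∀ a b, ∑ i ∈ D a, v i = ∑ i ∈ D b, v i) :
    (B.card : ℝ) ≤ 3 ^ (25 * s ^ 2) / 2 := by
  refine le_trans ?_ (block v s hs hH hN)
  rw [Nat.cast_le]
  refine card_le_card fun x hx => ?_
  exact (@mem_filter _ _ (_) _ _).2 ⟨mem_univ _, hB x hx⟩

theorem fiber_half {n s : ℕ} (hs : 1 ≤ s) {G : Type} [AddCommGroup G] [Fintype G]
    (w : Fin n → ZMod 3 → G) (A : Finset (Fin n → ZMod 3)) (hA : Free A)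
    (hw : ∀ x y : Fin n → ZMod 3, ∑ i, w i (x i) = ∑ i, w i (y i) → x ∈ A → y ∈ A)
    (hG : Fintype.card G ^ 2 ≤ 2 ^ s) (S T : Finset (Fin n)) (hT : T.card = 25 * s ^ 2)
    (y0 : Fin n → ZMod 3) :
    (((P A (S ∪ T)).filter (fun y => glue S y 0 = y0)).card : ℝ) ≤ 3 ^ (25 * s ^ 2) / 2 := by
  have hH : Fintype.card (G × G) ≤ 2 ^ s := by
    rw [Fintype.card_prod, ← sq]
    exact hG
  have hTc : Fintype.card T = 25 * s ^ 2 := (Fintype.card_coe T).trans hT
  set F := (P A (S ∪ T)).filter (fun y => glue S y 0 = y0) with hF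
  have hinj : Set.InjOn (fun (y : Fin n → ZMod 3) (k : T) => y k) (F : Set (Fin n → ZMod 3)) := by
    intro y hy y' hy' hyy
    have hy := mem_filter.1 (mem_coe.1 hy)
    have hy' := mem_filter.1 (mem_coe.1 hy')
    exact P_eq_of hy.1 hy'.1 (hy.2.trans hy'.2.symm) fun j hj => congrFun hyy ⟨j, hj⟩
  rw [← card_image_of_injOn hinj]
  refine block_le (fun i : T => AS36.vv w i) s hs hH hTc _ ?_
  intro z hz
  obtain ⟨y, hy, rfl⟩ := mem_image.1 hz
  have hy := mem_filter.1 hy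
  obtain ⟨x, hx, hxy⟩ := mem_image.1 hy.1
  rintro ⟨D, hne, hlet, hsum⟩
  let e : T ↪ Fin n := Function.Embedding.subtype _
  have hxT : ∀ i ∈ T, y i = x i := by
    intro i hi
    rw [← hxy]
    simp [glue, hi]
  have hlet' : ∀ a : Fin 3, ∀ i ∈ (D a).map e, x i = ((a : ℕ) : ZMod 3) := by
    intro a i hi
    obtain ⟨k, hk, rfl⟩ := mem_map.1 hi
    have h1 := hlet a k hk
    rw [← h1]
    exact (hxT _ k.2).symm
  have hdis : ∀ a b : Fin 3, a ≠ b → Disjoint ((D a).map e) ((D b).map e) := by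
    intro a b hab
    rw [disjoint_left]
    intro i hi hi'
    have h1 := hlet' a i hi
    have h2 := hlet' b i hi'
    rw [h1] at h2
    revert hab h2
    fin_cases a <;> fin_cases b <;> decide
  have hsum' : ∀ a b, ∑ i ∈ (D a).map e, AS36.vv w i = ∑ i ∈ (D b).map e, AS36.vv w i := by
    intro a b
    rw [sum_map, sum_map]
    exact hsum a b
  obtain ⟨d, hd, hd0, e1, e2⟩ := AS36.prog w (fun a => (D a).map e) hdis
    (fun a => (hne a).map) hsum' x hlet'
  exact hA x d hd hd0 ⟨hx, hw x (x + d) e1.symm hx, hw x (x + 2 • d) e2.symm hx⟩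

theorem prefixes {n s : ℕ} (hs : 1 ≤ s) {G : Type} [AddCommGroup G] [Fintype G]
    (w : Fin n → ZMod 3 → G) (A : Finset (Fin n → ZMod 3)) (hA : Free A)
    (hw : ∀ x y : Fin n → ZMod 3, ∑ i, w i (x i) = ∑ i, w i (y i) → x ∈ A → y ∈ A)
    (hG : Fintype.card G ^ 2 ≤ 2 ^ s) :
    ∀ m : ℕ, m * (25 * s ^ 2) ≤ n →
      ((P A (Low 1 (m * (25 * s ^ 2)))).card : ℝ) ≤ (3 ^ (25 * s ^ 2) / 2) ^ m := by
  intro m
  induction m with
  | zero =>
    intro _
    rw [zero_mul, pow_zero]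
    have h : P A (Low 1 0) ⊆ {0} := by
      intro y hy
      obtain ⟨x, _, rfl⟩ := mem_image.1 hy
      rw [mem_singleton]
      funext j
      simp [glue, Low]
    have := card_le_card h
    rw [card_singleton] at this
    exact_mod_cast this
  | succ m ih =>
    intro hm
    have hm' : m * (25 * s ^ 2) + 25 * s ^ 2 ≤ n := by
      rw [Nat.succ_mul] at hm
      exact hm
    have h1 := ih (by omega)
    rw [Nat.succ_mul, ← low_block 1 (m * (25 * s ^ 2)) (25 * s ^ 2), pow_succ]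
    refine (step A _ _ (fiber_half hs w A hA hw hG _ _ (card_block 1 _ _ hm'))).trans ?_
    exact mul_le_mul_of_nonneg_right h1 (by positivity)

/-- **Free unions of level sets of an additive statistic.** -/
theorem main {n s : ℕ} (hs : 1 ≤ s) {G : Type} [AddCommGroup G] [Fintype G]
    (hG : Fintype.card G ^ 2 ≤ 2 ^ s) (w : Fin n → ZMod 3 → G) (A : Finset (Fin n → ZMod 3))
    (hA : Free A)
    (hw : ∀ x y : Fin n → ZMod 3, ∑ i, w i (x i) = ∑ i, w i (y i) → x ∈ A → y ∈ A) :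
    (A.card : ℝ) ≤ 3 ^ n / 2 ^ (n / (25 * s ^ 2)) := by
  set N := 25 * s ^ 2 with hN
  set m := n / N with hm
  have hml : m * N ≤ n := Nat.div_mul_le_self n N
  have h1 := prefixes hs w A hA hw hG m hml
  have h2 := step A (Low 1 (m * N))
    (univ.filter (fun j => m * N ≤ ((1 : Equiv.Perm (Fin n)) j : ℕ) ∧
      ((1 : Equiv.Perm (Fin n)) j : ℕ) < m * N + (n - m * N)))
    (fiber_trivial A _ _)
  rw [low_block, card_block 1 _ _ (by omega), Nat.add_sub_cancel' hml] at h2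
  have h3 : P A (Low 1 n) = A := by
    have : ∀ x : Fin n → ZMod 3, glue (Low 1 n) x 0 = x := by
      intro x
      funext j
      simp [glue, Low]
    unfold P
    simp only [this, image_id']
  rw [h3] at h2
  calc (A.card : ℝ) ≤ (P A (Low 1 (m * N))).card * 3 ^ (n - m * N) := h2
    _ ≤ (3 ^ N / 2) ^ m * 3 ^ (n - m * N) := mul_le_mul_of_nonneg_right h1 (by positivity)
    _ = 3 ^ n / 2 ^ m := by
      have h4 : (3 : ℝ) ^ n = 3 ^ (N * m) * 3 ^ (n - m * N) := by
        rw [← pow_add]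
        congr 1
        rw [Nat.mul_comm N m]
        omega
      rw [h4, div_pow, ← pow_mul]
      exact div_mul_eq_mul_div _ _ _

end Pool.Agent.AT36
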