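import Mathlib

/-!
# Second moment (helper98, shadow of AT36/Moment; proof as in its header)
-/

set_option autoImplicit false

namespace Pool.Agent.AT36.S98

open Finset

open Classical in
theorem cnt98 {α : Type} [Fintype α] [DecidableEq α] (a : ZMod 3) (S : Finset α) :
    (((univ : Finset (α → ZMod 3)).filter (fun x => ∀ i ∈ S, x i = a)).card : ℝ) * 3 ^ S.card =
      3 ^ (Fintype.card α) := by
  have h1 : (univ : Finset (α → ZMod 3)).filter (fun x => ∀ i ∈ S, x i = a) =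
      Fintype.piFinset (fun i => if i ∈ S then ({a} : Finset (ZMod 3)) else univ) := by
    ext x
    simp only [Finset.mem_filter, Finset.mem_univ, true_and, Fintype.mem_piFinset]
    refine ⟨fun h i => ?_, fun h i hi => ?_⟩
    · by_cases hi : i ∈ S
      · rw [if_pos hi, Finset.mem_singleton]; exact h i hi
      · rw [if_neg hi]; exact Finset.mem_univ _
    · have h2 := h i
      rw [if_pos hi, Finset.mem_singleton] at h2
      exact h2
  rw [h1, Fintype.card_piFinset]
  have h2 : ∀ i : α, (if i ∈ S then ({a} : Finset (ZMod 3)) else univ).card =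
      if i ∈ S then 1 else 3 := by
    intro i
    by_cases hi : i ∈ S
    · rw [if_pos hi, if_pos hi, Finset.card_singleton]
    · rw [if_neg hi, if_neg hi, Finset.card_univ, ZMod.card]
  rw [Finset.prod_congr rfl (fun i _ => h2 i)]
  have h3 : (3 : ℝ) ^ S.card = ∏ i : α, (if i ∈ S then (3 : ℝ) else 1) := by
    rw [Finset.prod_ite, Finset.prod_const_one, mul_one, Finset.prod_const]
    congr 2
    ext i
    simp
  rw [h3]
  push_cast
  rw [← Finset.prod_mul_distrib, ← Finset.card_univ, ← Finset.prod_const]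
  refine Finset.prod_congr rfl fun i _ => ?_
  by_cases hi : i ∈ S
  · simp [hi]
  · simp [hi]

open Classical in
theorem three98 {α : Type} [DecidableEq α] {t R : ℕ} (hR : 2 ≤ R)
    (L : Finset (Finset α))
    (hsp : ∀ J : Finset α, (L.filter (fun B => J ⊆ B)).card * R ^ J.card ≤ L.card)
    (B : Finset α) (hB : B.card = t) :
    ∑ B' ∈ L, (3 : ℝ) ^ (B ∩ B').card ≤ L.card * (1 + 2 / R) ^ t := by
  have hR0 : (0 : ℝ) < R := by
    have : 0 < R := by omega
    exact_mod_cast this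
  have h1 : ∀ S : Finset α, (3 : ℝ) ^ S.card = ∑ J ∈ S.powerset, (2 : ℝ) ^ J.card := by
    intro S
    have h := Finset.sum_pow_mul_eq_add_pow (2 : ℝ) 1 S
    have h2 : (2 : ℝ) + 1 = 3 := by norm_num
    rw [h2] at h
    rw [← h]
    refine Finset.sum_congr rfl fun J _ => ?_
    rw [one_pow, mul_one]
  have h2 : ∀ B' ∈ L, (3 : ℝ) ^ (B ∩ B').card =
      ∑ J ∈ B.powerset, if J ⊆ B' then (2 : ℝ) ^ J.card else 0 := by
    intro B' _
    rw [h1, ← Finset.sum_filter]
    refine Finset.sum_congr ?_ fun _ _ => rfl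
    ext J
    simp only [Finset.mem_powerset, Finset.mem_filter, Finset.subset_inter_iff]
  rw [Finset.sum_congr rfl h2, Finset.sum_comm]
  have h3 : ∀ J ∈ B.powerset, (∑ B' ∈ L, if J ⊆ B' then (2 : ℝ) ^ J.card else 0) ≤
      L.card * (2 / R : ℝ) ^ J.card := by
    intro J _
    rw [← Finset.sum_filter, Finset.sum_const, nsmul_eq_mul, div_pow, mul_div_assoc',
      le_div_iff₀ (by positivity)]
    have h4 : ((L.filter (fun B' => J ⊆ B')).card : ℝ) * (R : ℝ) ^ J.card ≤ L.card := by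
      exact_mod_cast hsp J
    calc ((L.filter (fun B' => J ⊆ B')).card : ℝ) * 2 ^ J.card * (R : ℝ) ^ J.card
        = ((L.filter (fun B' => J ⊆ B')).card : ℝ) * (R : ℝ) ^ J.card * 2 ^ J.card := by ring
      _ ≤ L.card * 2 ^ J.card := mul_le_mul_of_nonneg_right h4 (by positivity)
  refine (Finset.sum_le_sum h3).trans ?_
  rw [← Finset.mul_sum]
  refine mul_le_mul_of_nonneg_left ?_ (Nat.cast_nonneg _)
  have h5 := Finset.sum_pow_mul_eq_add_pow (2 / R : ℝ) 1 B
  rw [hB] at h5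
  have h6 : (1 : ℝ) + 2 / R = 2 / R + 1 := by ring
  rw [h6, ← h5]
  refine le_of_eq (Finset.sum_congr rfl fun J _ => ?_)
  rw [one_pow, mul_one]

open Classical in
theorem moment {α : Type} [Fintype α] [DecidableEq α] {t R : ℕ} (hR : 2 ≤ R)
    (L : Finset (Finset α)) (hL : L.Nonempty) (hc : ∀ B ∈ L, B.card = t)
    (hsp : ∀ J : Finset α, (L.filter (fun B => J ⊆ B)).card * R ^ J.card ≤ L.card) (a : ZMod 3) :
    (((univ : Finset (α → ZMod 3)).filter (fun x => ¬ ∃ B ∈ L, ∀ i ∈ B, x i = a)).card : ℝ) ≤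
      3 ^ (Fintype.card α) * (2 * t / R) := by
  have hR2 : (2 : ℝ) ≤ R := by exact_mod_cast hR
  have hR0 : (0 : ℝ) < R := by linarith
  have hLc : (0 : ℝ) < L.card := by exact_mod_cast hL.card_pos
  set N : ℕ := Fintype.card α with hN
  set G : ℝ := (((univ : Finset (α → ZMod 3)).filter
    (fun x => ∃ B ∈ L, ∀ i ∈ B, x i = a)).card : ℝ) with hG
  set Z : (α → ZMod 3) → ℝ := fun x => ∑ B ∈ L, if ∀ i ∈ B, x i = a then (1 : ℝ) else 0 with hZ
  have hcnt : ∀ S : Finset α, ∑ x : α → ZMod 3, (if ∀ i ∈ S, x i = a then (1 : ℝ) else 0) =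
      3 ^ N / 3 ^ S.card := by
    intro S
    rw [Finset.sum_boole, eq_div_iff (by positivity)]
    exact cnt98 a S
  have hS1 : ∑ x : α → ZMod 3, Z x = L.card * (3 ^ N / 3 ^ t) := by
    simp only [hZ]
    rw [Finset.sum_comm, Finset.sum_congr rfl (fun B _ => hcnt B),
      Finset.sum_congr rfl (fun B hB => by rw [hc B hB]), Finset.sum_const, nsmul_eq_mul]
  have hS2 : ∑ x : α → ZMod 3, Z x ^ 2 ≤
      (L.card : ℝ) * (L.card * (1 + 2 / R) ^ t) * (3 ^ N / 3 ^ (2 * t)) := by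
    have h1 : ∀ x : α → ZMod 3, Z x ^ 2 = ∑ B ∈ L, ∑ B' ∈ L,
        (if ∀ i ∈ B ∪ B', x i = a then (1 : ℝ) else 0) := by
      intro x
      simp only [hZ]
      rw [sq, Finset.sum_mul_sum]
      refine Finset.sum_congr rfl fun B _ => Finset.sum_congr rfl fun B' _ => ?_
      have h2 : (∀ i ∈ B ∪ B', x i = a) ↔ (∀ i ∈ B, x i = a) ∧ (∀ i ∈ B', x i = a) := by
        constructor
        · intro h
          exact ⟨fun i hi => h i (Finset.mem_union_left _ hi),
            fun i hi => h i (Finset.mem_union_right _ hi)⟩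
        · rintro ⟨h3, h4⟩ i hi
          rcases Finset.mem_union.1 hi with h | h
          · exact h3 i h
          · exact h4 i h
      by_cases h3 : ∀ i ∈ B, x i = a
      · by_cases h4 : ∀ i ∈ B', x i = a
        · rw [if_pos h3, if_pos h4, if_pos (h2.2 ⟨h3, h4⟩), mul_one]
        · rw [if_neg h4, if_neg (fun h => h4 (h2.1 h).2), mul_zero]
      · rw [if_neg h3, if_neg (fun h => h3 (h2.1 h).1), zero_mul]
    rw [Finset.sum_congr rfl (fun x _ => h1 x), Finset.sum_comm]
    have h5 : ∀ B ∈ L, ∑ x : α → ZMod 3, ∑ B' ∈ L,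
        (if ∀ i ∈ B ∪ B', x i = a then (1 : ℝ) else 0) ≤
        (L.card * (1 + 2 / R) ^ t) * (3 ^ N / 3 ^ (2 * t)) := by
      intro B hB
      rw [Finset.sum_comm, Finset.sum_congr rfl (fun B' _ => hcnt (B ∪ B'))]
      have h6 : ∀ B' ∈ L, (3 : ℝ) ^ N / 3 ^ (B ∪ B').card =
          (3 : ℝ) ^ (B ∩ B').card * (3 ^ N / 3 ^ (2 * t)) := by
        intro B' hB'
        have h7 : (B ∪ B').card + (B ∩ B').card = 2 * t := by
          rw [Finset.card_union_add_card_inter, hc B hB, hc B' hB']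
          ring
        rw [← h7, pow_add]
        field_simp
      rw [Finset.sum_congr rfl h6, ← Finset.sum_mul]
      exact mul_le_mul_of_nonneg_right (three98 hR L hsp B (hc B hB)) (by positivity)
    refine (Finset.sum_le_sum h5).trans ?_
    rw [Finset.sum_const, nsmul_eq_mul, ← mul_assoc]
  -- Cauchy-Schwarz
  have hcs := Finset.sum_mul_sq_le_sq_mul_sq (univ : Finset (α → ZMod 3))
    (fun x => if ∃ B ∈ L, ∀ i ∈ B, x i = a then (1 : ℝ) else 0) Z
  have hind : ∀ x : α → ZMod 3,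
      (if ∃ B ∈ L, ∀ i ∈ B, x i = a then (1 : ℝ) else 0) * Z x = Z x := by
    intro x
    by_cases h : ∃ B ∈ L, ∀ i ∈ B, x i = a
    · rw [if_pos h, one_mul]
    · rw [if_neg h, zero_mul]
      simp only [hZ]
      symm
      refine Finset.sum_eq_zero fun B hB => ?_
      rw [if_neg (fun h' => h ⟨B, hB, h'⟩)]
  have hind2 : ∑ x : α → ZMod 3,
      (if ∃ B ∈ L, ∀ i ∈ B, x i = a then (1 : ℝ) else 0) ^ 2 = G := by
    rw [hG, ← Finset.sum_boole]
    refine Finset.sum_congr rfl fun x _ => ?_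
    split_ifs <;> norm_num
  rw [Finset.sum_congr rfl (fun x _ => hind x), hind2, hS1] at hcs
  have hG0 : 0 ≤ G := by rw [hG]; exact Nat.cast_nonneg _
  set y : ℝ := 2 / R with hy
  have hy0 : 0 ≤ y := by rw [hy]; positivity
  have hy1 : y ≤ 1 := by rw [hy, div_le_one hR0]; exact hR2
  have h1 : (3 : ℝ) ^ N ≤ G * (1 + y) ^ t := by
    have h2 := hcs.trans (mul_le_mul_of_nonneg_left hS2 hG0)
    have h3 : ((L.card : ℝ) * (3 ^ N / 3 ^ t)) ^ 2 =
        3 ^ N * ((L.card : ℝ) ^ 2 * (3 ^ N / 3 ^ (2 * t))) := by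
      have h4 : (3 : ℝ) ^ (2 * t) = 3 ^ t * 3 ^ t := by rw [two_mul, pow_add]
      rw [h4]
      field_simp
    have h4 : G * ((L.card : ℝ) * (L.card * (1 + y) ^ t) * (3 ^ N / 3 ^ (2 * t))) =
        G * (1 + y) ^ t * ((L.card : ℝ) ^ 2 * (3 ^ N / 3 ^ (2 * t))) := by ring
    rw [h3, h4] at h2
    exact le_of_mul_le_mul_right h2 (by positivity)
  have h2 : (1 + y) ^ t * (1 - t * y) ≤ 1 := by
    have h3 : 1 - t * y ≤ (1 - y) ^ t := by
      have h4 := one_add_mul_le_pow (a := -y) (by linarith) t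
      have h5 : (1 : ℝ) + t * (-y) = 1 - t * y := by ring
      have h6 : (1 : ℝ) + -y = 1 - y := by ring
      rw [h5, h6] at h4
      exact h4
    calc (1 + y) ^ t * (1 - t * y) ≤ (1 + y) ^ t * (1 - y) ^ t :=
          mul_le_mul_of_nonneg_left h3 (by positivity)
      _ = (1 - y ^ 2) ^ t := by rw [← mul_pow]; congr 1; ring
      _ ≤ 1 := pow_le_one₀ (by nlinarith) (by nlinarith [sq_nonneg y])
  have h3 : (3 : ℝ) ^ N * (1 - t * y) ≤ G := by
    rcases le_or_gt 0 (1 - t * y) with h | h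
    · calc (3 : ℝ) ^ N * (1 - t * y) ≤ G * (1 + y) ^ t * (1 - t * y) :=
            mul_le_mul_of_nonneg_right h1 h
        _ = G * ((1 + y) ^ t * (1 - t * y)) := by ring
        _ ≤ G * 1 := mul_le_mul_of_nonneg_left h2 hG0
        _ = G := mul_one G
    · have : (3 : ℝ) ^ N * (1 - t * y) ≤ 0 :=
        mul_nonpos_of_nonneg_of_nonpos (by positivity) h.le
      linarith
  have h4 : (((univ : Finset (α → ZMod 3)).filter
      (fun x => ¬ ∃ B ∈ L, ∀ i ∈ B, x i = a)).card : ℝ) = 3 ^ N - G := by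
    have h5 := Finset.card_filter_add_card_filter_not (s := (univ : Finset (α → ZMod 3)))
      (fun x => ∃ B ∈ L, ∀ i ∈ B, x i = a)
    have h6 : (univ : Finset (α → ZMod 3)).card = 3 ^ N := by
      rw [Finset.card_univ, Fintype.card_fun, ZMod.card]
    rw [h6] at h5
    have h7 : G + (((univ : Finset (α → ZMod 3)).filter
      (fun x => ¬ ∃ B ∈ L, ∀ i ∈ B, x i = a)).card : ℝ) = 3 ^ N := by
      rw [hG]
      exact_mod_cast h5
    linarith
  rw [h4]
  have h5 : (3 : ℝ) ^ N * (2 * t / R) = 3 ^ N * (t * y) := by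
    rw [hy]; ring
  rw [h5]
  linarith

end Pool.Agent.AT36.S98
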